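import Pool.Agent.helper51.PC.Spec

/-!
# Row pc:CON and elementary lemmas about `DVal` and `Ge`
-/

set_option autoImplicit false

namespace Pool.Agent.PC

universe u

section

variable {K : Type u} [Field K] {v : K → ℤ}

theorem CON_one (hv : DVal v) : v 1 = 0 := by
  have h := hv.mul 1 1 one_ne_zero one_ne_zero
  rw [mul_one] at h
  omega

theorem CON_neg_one (hv : DVal v) : v (-1) = 0 := by
  have h := hv.mul (-1) (-1) (neg_ne_zero.mpr one_ne_zero) (neg_ne_zero.mpr one_ne_zero)
  rw [neg_one_mul, neg_neg, CON_one hv] at h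
  omega

theorem CON_neg (hv : DVal v) (x : K) (hx : x ≠ 0) : v (-x) = v x := by
  have h := hv.mul (-1) x (neg_ne_zero.mpr one_ne_zero) hx
  rw [neg_one_mul, CON_neg_one hv] at h
  omega

theorem CON_inv (hv : DVal v) (x : K) (hx : x ≠ 0) : v x⁻¹ = -v x := by
  have h := hv.mul x x⁻¹ hx (inv_ne_zero hx)
  rw [mul_inv_cancel₀ hx, CON_one hv] at h
  omega

theorem CON_div (hv : DVal v) (x y : K) (hx : x ≠ 0) (hy : y ≠ 0) : v (x / y) = v x - v y := by
  rw [div_eq_mul_inv, hv.mul x y⁻¹ hx (inv_ne_zero hy), CON_inv hv y hy]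
  ring

theorem CON_zpow (hv : DVal v) (x : K) (hx : x ≠ 0) (e : ℤ) : v (x ^ e) = e * v x := by
  induction e using Int.induction_on with
  | zero => rw [zpow_zero, CON_one hv, zero_mul]
  | succ i ih =>
    rw [zpow_add_one₀ hx, hv.mul _ _ (zpow_ne_zero _ hx) hx, ih]
    ring
  | pred i ih =>
    rw [zpow_sub_one₀ hx, hv.mul _ _ (zpow_ne_zero _ hx) (inv_ne_zero hx), ih, CON_inv hv x hx]
    ring

theorem CON_ge_zero (r : ℤ) : Ge v r (0 : K) := Or.inl rfl

theorem CON_ge_mono {r r' : ℤ} (h : r' ≤ r) {x : K} (hx : Ge v r x) : Ge v r' x := by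
  rcases hx with hx | hx
  · exact Or.inl hx
  · exact Or.inr (h.trans hx)

theorem CON_ge_mul (hv : DVal v) {r r' : ℤ} {x y : K} (hx : Ge v r x) (hy : Ge v r' y) :
    Ge v (r + r') (x * y) := by
  by_cases h0 : x * y = 0
  · exact Or.inl h0
  · have hx0 : x ≠ 0 := left_ne_zero_of_mul h0
    have hy0 : y ≠ 0 := right_ne_zero_of_mul h0
    have h1 := hx.resolve_left hx0
    have h2 := hy.resolve_left hy0
    refine Or.inr ?_
    rw [hv.mul x y hx0 hy0]
    omega

theorem CON_ge_add (hv : DVal v) {r : ℤ} {x y : K} (hx : Ge v r x) (hy : Ge v r y) :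
    Ge v r (x + y) := by
  by_cases hx0 : x = 0
  · rw [hx0, zero_add]
    exact hy
  by_cases hy0 : y = 0
  · rw [hy0, add_zero]
    exact hx
  by_cases h0 : x + y = 0
  · exact Or.inl h0
  · have h1 := hx.resolve_left hx0
    have h2 := hy.resolve_left hy0
    exact Or.inr ((le_min h1 h2).trans (hv.add x y hx0 hy0 h0))

theorem CON_ge_neg (hv : DVal v) {r : ℤ} {x : K} (hx : Ge v r x) : Ge v r (-x) := by
  rcases hx with hx | hx
  · exact Or.inl (by rw [hx, neg_zero])
  · by_cases h0 : x = 0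
    · exact Or.inl (by rw [h0, neg_zero])
    · exact Or.inr (by rw [CON_neg hv x h0]; exact hx)

theorem CON_ge_sub (hv : DVal v) {r : ℤ} {x y : K} (hx : Ge v r x) (hy : Ge v r y) :
    Ge v r (x - y) := by
  rw [sub_eq_add_neg]
  exact CON_ge_add hv hx (CON_ge_neg hv hy)

theorem CON_ge_prod (hv : DVal v) {ι : Type} (S : Finset ι) (r : ι → ℤ) (x : ι → K)
    (h : ∀ i ∈ S, Ge v (r i) (x i)) : Ge v (∑ i ∈ S, r i) (∏ i ∈ S, x i) := by
  classical
  induction S using Finset.induction_on with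
  | empty =>
    rw [Finset.sum_empty, Finset.prod_empty]
    exact Or.inr (le_of_eq (CON_one hv).symm)
  | insert a S ha ih =>
    rw [Finset.sum_insert ha, Finset.prod_insert ha]
    exact CON_ge_mul hv (h a (Finset.mem_insert_self a S))
      (ih fun i hi => h i (Finset.mem_insert_of_mem hi))

end

/-- **Row CON**. -/
theorem CON : CON_stmt.{u} := by
  intro K _ s v hv w hw J hJs hJm z b r hz hsz hb hsb hr hmem
  by_contra hzJ
  obtain ⟨hw0, hsw, hw1, hwd⟩ := hw
  have key : ∀ j ∈ J, j ≠ 0 → v z + v w ≤ v j := by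
    intro j hj hj0
    have hs : s (z / j) = z / j := by rw [map_div₀, hsz, hJs j hj]
    have hq0 : z / j ≠ 0 := div_ne_zero hz hj0
    have hq : ¬ Ge v 0 (z / j) := by
      intro h
      have h1 := hJm (z / j) ⟨hs, h⟩ j hj
      rw [div_mul_cancel₀ z hj0] at h1
      exact hzJ h1
    have hneg : v (z / j) < 0 := by
      by_contra h
      exact hq (Or.inr (not_lt.mp h))
    have hd : v w ∣ v (z / j) := hwd _ hq0 hs
    have hle : v w ≤ -v (z / j) := Int.le_of_dvd (by omega) (by rwa [Int.dvd_neg])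
    rw [CON_div hv z j hz hj0] at hle
    omega
  have all : ∀ y ∈ Sp v r (J : Set K), Ge v (r + (v z + v w)) y := by
    intro y hy
    refine AddSubgroup.closure_induction (p := fun y _ => Ge v (r + (v z + v w)) y) ?_ ?_ ?_ ?_ hy
    · rintro y ⟨o, ho, j, hj, rfl⟩
      by_cases hj0 : j = 0
      · exact Or.inl (by rw [hj0, mul_zero])
      · exact CON_ge_mul hv ho (Or.inr (key j hj hj0))
    · exact CON_ge_zero _
    · intro x y _ _ hx hy
      exact CON_ge_add hv hx hy
    · intro x _ hx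
      exact CON_ge_neg hv hx
  have h := (all _ hmem).resolve_left (mul_ne_zero hb hz)
  rw [hv.mul b z hb hz] at h
  omega

end Pool.Agent.PC
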