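import Pool.Agent.helper51.PC.Spec

/-!
# Row pc:LDV
-/

set_option autoImplicit false

namespace Pool.Agent.PC

universe u

/-- **Row LDV**. -/
theorem LDV : LDV_stmt.{u} := by
  intro R K _ _ _ _ _ _ _ P O hP hht hO
  have hinj : Function.Injective (algebraMap R K) := IsFractionRing.injective R K
  have h1P : (1 : R) ∉ P := fun h => hP.ne_top ((Ideal.eq_top_iff_one P).mpr h)
  have hmem : ∀ r : R, algebraMap R K r ∈ O := fun r =>
    (hO _).mpr ⟨r, 1, h1P, by rw [map_one, div_one]⟩
  let f : R →+* O := (algebraMap R K).codRestrict O.toSubring hmem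
  have hf : ∀ r, ((f r : O) : K) = algebraMap R K r := fun r => rfl
  have hunit : ∀ y : P.primeCompl, IsUnit (f y) := by
    intro y
    have hy : (y : R) ∉ P := y.2
    have hy0 : algebraMap R K y ≠ 0 := by
      intro h
      have : (y : R) = 0 := hinj (by rw [h, map_zero])
      exact hy (by rw [this]; exact P.zero_mem)
    have hinv : (algebraMap R K y)⁻¹ ∈ O := (hO _).mpr ⟨1, y, hy, by rw [map_one, one_div]⟩
    refine IsUnit.of_mul_eq_one (⟨_, hinv⟩ : O) ?_
    apply Subtype.ext
    show algebraMap R K y * (algebraMap R K y)⁻¹ = 1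
    exact mul_inv_cancel₀ hy0
  let g : Localization.AtPrime P →+* O := IsLocalization.lift (M := P.primeCompl) (g := f) hunit
  have hsurj : Function.Surjective g := by
    intro x
    obtain ⟨a, t, ht, hx⟩ := (hO x).mp x.2
    refine ⟨IsLocalization.mk' _ a (⟨t, ht⟩ : P.primeCompl), ?_⟩
    show IsLocalization.lift (M := P.primeCompl) (g := f) hunit _ = x
    rw [IsLocalization.lift_mk'_spec]
    apply Subtype.ext
    show algebraMap R K a = algebraMap R K t * (x : K)
    rw [hx]
    have ht0 : algebraMap R K t ≠ 0 := by
      intro h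
      have : t = 0 := hinj (by rw [h, map_zero])
      exact ht (by rw [this]; exact P.zero_mem)
    rw [mul_div_cancel₀ _ ht0]
  have : IsNoetherianRing O := by
    have : IsNoetherianRing (Localization.AtPrime P) :=
      IsLocalization.isNoetherianRing P.primeCompl (Localization.AtPrime P) inferInstance
    exact isNoetherianRing_of_surjective _ _ g hsurj
  have hPbot : P ≠ ⊥ := by
    intro h
    rw [h, Ideal.height_bot] at hht
    exact zero_ne_one hht
  obtain ⟨a, haP, ha0⟩ := Submodule.exists_mem_ne_zero_of_ne_bot hPbot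
  have hnf : ¬ IsField O := by
    intro hfield
    have ha : f a ≠ 0 := by
      intro h
      apply ha0
      apply hinj
      rw [map_zero, ← hf a, h]
      rfl
    obtain ⟨b, hb⟩ := hfield.mul_inv_cancel ha
    obtain ⟨c, t, ht, hx⟩ := (hO b).mp b.2
    have ht0 : algebraMap R K t ≠ 0 := by
      intro h
      have : t = 0 := hinj (by rw [h, map_zero])
      exact ht (by rw [this]; exact P.zero_mem)
    have h2 : algebraMap R K a * (b : K) = 1 := by
      have h3 := congrArg (fun z : O => (z : K)) hb
      exact h3
    rw [hx, mul_div_assoc', div_eq_one_iff_eq ht0, ← map_mul] at h2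
    have h4 : a * c = t := hinj h2
    exact ht (by rw [← h4]; exact P.mul_mem_right c haP)
  have hval : ValuationRing O := inferInstance
  exact ((IsDiscreteValuationRing.TFAE O hnf).out 0 1).mpr hval

end Pool.Agent.PC
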