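import Pool.Agent.helper16.PC.CONR

/-!
# Row pc:LAT
-/

set_option autoImplicit false

namespace Pool.Agent.PC

universe u

/-- **Row LAT**. -/
theorem LAT : LAT_stmt.{u} := by
  classical
  intro k K _ _ _ n D s v hv w hw y hy
  obtain ⟨hw0, hsw, hw1, hwd⟩ := hw
  obtain ⟨f, hf, rfl⟩ := hy
  choose e he using fun i => hwd (f i) (hf i).1 (hf i).2
  let g : Fin n → K := fun i => f i / w ^ e i
  have hg0 : ∀ i, g i ≠ 0 := fun i => div_ne_zero (hf i).1 (zpow_ne_zero _ hw0)
  have hgs : ∀ i, s (g i) = g i := by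
    intro i
    show s (f i / w ^ e i) = f i / w ^ e i
    rw [map_div₀, map_zpow₀, hsw, (hf i).2]
  have hgv : ∀ i, v (g i) = 0 := by
    intro i
    show v (f i / w ^ e i) = 0
    rw [CON_div hv _ _ (hf i).1 (zpow_ne_zero _ hw0), CON_zpow hv w hw0, he i]
    ring
  have hrow : ∀ i j, D j (f i) / f i = (e i : K) * (w⁻¹ * D j w) + (g i)⁻¹ * D j (g i) := by
    intro i j
    have hfg : f i = w ^ e i * g i := by
      show f i = w ^ e i * (f i / w ^ e i)
      rw [mul_div_cancel₀ _ (zpow_ne_zero _ hw0)]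
    have h1 : D j (f i) = w ^ e i * D j (g i) + g i * ((e i : K) * (w ^ (e i - 1) * D j w)) := by
      conv_lhs => rw [hfg]
      rw [Derivation.leibniz, Derivation.leibniz_zpow, smul_eq_mul, smul_eq_mul, zsmul_eq_mul,
        smul_eq_mul]
    rw [h1]
    rw [zpow_sub_one₀ hw0]
    conv_lhs => rw [hfg]
    have hz := zpow_ne_zero (e i) hw0
    have hgi := hg0 i
    field_simp
    ring
  have hdet : JJ D f / ∏ i, f i = Matrix.det (Matrix.of fun i j => D j (f i) / f i) := by
    have h1 := Matrix.det_mul_column (fun i => (f i)⁻¹) (Matrix.of fun i j => D j (f i))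
    have h2 : (Matrix.of fun i j => D j (f i) / f i) =
        Matrix.of fun i j => (f i)⁻¹ * (Matrix.of fun i j => D j (f i)) i j := by
      ext i j
      show D j (f i) / f i = (f i)⁻¹ * D j (f i)
      rw [div_eq_inv_mul]
    rw [h2, h1, Finset.prod_inv_distrib, div_eq_inv_mul]
    rfl
  have hsum : Matrix.det (Matrix.of fun i j => D j (f i) / f i) =
      ∑ S : Finset (Fin n), Matrix.detRowAlternating
        (S.piecewise (fun i j => (e i : K) * (w⁻¹ * D j w)) (fun i j => (g i)⁻¹ * D j (g i))) := by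
    rw [← AlternatingMap.map_add_univ]
    have h2 : (Matrix.of fun i j => D j (f i) / f i) =
        ((fun i j => (e i : K) * (w⁻¹ * D j w)) + (fun i j => (g i)⁻¹ * D j (g i)) :
          Fin n → Fin n → K) := by
      ext i j
      exact hrow i j
    rw [h2]
    rfl
  rw [hdet, hsum, Finset.mul_sum]
  refine AddSubgroup.sum_mem _ fun S _ => ?_
  let h : Fin n → K := fun i => if i ∈ S then w else g i
  have hh0 : ∀ i, h i ≠ 0 := by
    intro i
    show (if i ∈ S then w else g i) ≠ 0
    split_ifs
    · exact hw0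
    · exact hg0 i
  have hhs : ∀ i, s (h i) = h i := by
    intro i
    show s (if i ∈ S then w else g i) = if i ∈ S then w else g i
    split_ifs
    · exact hsw
    · exact hgs i
  have hhv : ∀ i, v (h i) = if i ∈ S then v w else 0 := by
    intro i
    show v (if i ∈ S then w else g i) = _
    split_ifs
    · rfl
    · exact hgv i
  have hE : Matrix.detRowAlternating
        (S.piecewise (fun i j => (e i : K) * (w⁻¹ * D j w)) (fun i j => (g i)⁻¹ * D j (g i))) =
      ((∏ i, (if i ∈ S then e i else 1) : ℤ) : K) * ((∏ i, h i)⁻¹ * JJ D h) := by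
    have h1 := Matrix.det_mul_column
      (fun i => ((if i ∈ S then e i else 1 : ℤ) : K) * (h i)⁻¹) (Matrix.of fun i j => D j (h i))
    have h2 : (S.piecewise (fun i j => (e i : K) * (w⁻¹ * D j w)) (fun i j => (g i)⁻¹ * D j (g i)) :
        Fin n → Fin n → K) = Matrix.of fun i j => (((if i ∈ S then e i else 1 : ℤ) : K) * (h i)⁻¹) *
          (Matrix.of fun i j => D j (h i)) i j := by
      ext i j
      show _ = (((if i ∈ S then e i else 1 : ℤ) : K) * (if i ∈ S then w else g i)⁻¹) *
        D j (if i ∈ S then w else g i)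
      by_cases hi : i ∈ S
      · rw [Finset.piecewise_eq_of_mem _ _ _ hi, if_pos hi, if_pos hi, mul_assoc]
      · rw [Finset.piecewise_eq_of_notMem _ _ _ hi, if_neg hi, if_neg hi, Int.cast_one, one_mul]
    rw [h2]
    refine h1.trans ?_
    rw [Finset.prod_mul_distrib, Finset.prod_inv_distrib, mul_assoc, Int.cast_prod]
    rfl
  rw [hE]
  have hre : w * (((∏ i, (if i ∈ S then e i else 1) : ℤ) : K) * ((∏ i, h i)⁻¹ * JJ D h)) =
      (∏ i, (if i ∈ S then e i else 1) : ℤ) • ((w * (∏ i, h i)⁻¹) * JJ D h) := by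
    rw [zsmul_eq_mul]
    ring
  rw [hre]
  refine AddSubgroup.zsmul_mem _ ?_ _
  by_cases hS : S.card ≤ 1
  · refine AddSubgroup.subset_closure ⟨w * (∏ i, h i)⁻¹, ⟨?_, ?_⟩, h, fun i => ⟨hhs i, Or.inr ?_⟩, rfl⟩
    · rw [map_mul, map_inv₀, map_prod, hsw]
      rw [Finset.prod_congr rfl fun i _ => hhs i]
    · have hp0 : ∏ i, h i ≠ 0 := Finset.prod_ne_zero_iff.mpr fun i _ => hh0 i
      have hpv : v (∏ i, h i) = ∑ i, v (h i) := by
        have aux : ∀ T : Finset (Fin n), v (∏ i ∈ T, h i) = ∑ i ∈ T, v (h i) := by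
          intro T
          induction T using Finset.induction_on with
          | empty => rw [Finset.prod_empty, Finset.sum_empty, CON_one hv]
          | insert a T ha ih =>
            rw [Finset.prod_insert ha, Finset.sum_insert ha,
              hv.mul _ _ (hh0 a) (Finset.prod_ne_zero_iff.mpr fun i _ => hh0 i), ih]
        exact aux _
      have hsumv : ∑ i, v (h i) = (S.card : ℤ) * v w := by
        rw [Finset.sum_congr rfl fun i _ => hhv i, Finset.sum_ite_mem, Finset.univ_inter,
          Finset.sum_const, nsmul_eq_mul]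
      refine Or.inr ?_
      rw [hv.mul w _ hw0 (inv_ne_zero hp0), CON_inv hv _ hp0, hpv, hsumv]
      have hc : (S.card : ℤ) ≤ 1 := by exact_mod_cast hS
      nlinarith
    · rw [hhv i]
      split_ifs
      · exact hw1.le
      · exact le_refl _
  · obtain ⟨a, ha, b, hb, hab⟩ := Finset.one_lt_card.mp (not_le.mp hS)
    have hz : JJ D h = 0 := by
      unfold JJ
      refine Matrix.det_zero_of_row_eq hab ?_
      ext j
      show D j (if a ∈ S then w else g a) = D j (if b ∈ S then w else g b)
      rw [if_pos ha, if_pos hb]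
    rw [hz, mul_zero]
    exact AddSubgroup.zero_mem _

end Pool.Agent.PC
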