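import Pool.Agent.helper16.PC.CONR

/-!
# Row pc:XV
-/

set_option autoImplicit false

namespace Pool.Agent.PC

open MvPolynomial

universe u

theorem XV_sum (n d : ℕ) (hd : d ≤ n) :
    2 * ∑ i ∈ Finset.range n, (if i < d then ((d : ℤ) - 1 - i) else 0) = d * (d - 1) := by
  have e : ∑ i ∈ Finset.range n, (if i < d then ((d : ℤ) - 1 - i) else 0) =
      ∑ i ∈ Finset.range d, ((d : ℤ) - 1 - i) := by
    rw [← Finset.sum_filter]
    congr 1
    ext i
    rw [Finset.mem_filter, Finset.mem_range, Finset.mem_range]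
    omega
  rw [e]
  clear e hd
  have h : ∀ m : ℕ, ∀ c : ℤ, 2 * ∑ i ∈ Finset.range m, (c - i) = m * (2 * c + 1 - m) := by
    intro m c
    induction m with
    | zero =>
      rw [Finset.sum_range_zero]
      simp
    | succ m ih =>
      rw [Finset.sum_range_succ, mul_add, ih]
      push_cast
      ring
  rw [h]
  ring

/-- **Row XV**. -/
theorem XV : XV_stmt.{u} := by
  intro k _ n d p hn hN s hs v hv hx m hm hram
  obtain ⟨hp, h4, hdn, hdp, hpd⟩ := hN
  have key : ∀ t : ℕ, ∀ i : Fin n, (i : ℕ) + 1 + t = d → Ge v ((t : ℤ) * m) (xx k n i) := by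
    intro t
    induction t with
    | zero =>
      intro i _
      rw [Nat.cast_zero, zero_mul]
      exact hx i
    | succ t ih =>
      intro i hi
      have hlt : (i : ℕ) + 1 < n := by omega
      have h1 := ih ⟨(i : ℕ) + 1, hlt⟩ (by show (i : ℕ) + 1 + 1 + t = d; omega)
      have h2 := hram _ _ h1
      have h3 : s (xx k n ⟨(i : ℕ) + 1, hlt⟩) - xx k n ⟨(i : ℕ) + 1, hlt⟩ = xx k n i := by
        unfold xx
        rw [hs]
        unfold sg
        rw [aeval_X, dif_pos ⟨by show 0 < (i : ℕ) + 1; omega, by show (i : ℕ) + 1 < d; omega⟩,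
          map_add, add_sub_cancel_left]
        rfl
      rw [h3] at h2
      have e : ((t + 1 : ℕ) : ℤ) * m = (t : ℤ) * m + m := by push_cast; ring
      rw [e]
      exact h2
  have hall : ∀ i : Fin n, Ge v ((if (i : ℕ) < d then ((d : ℤ) - 1 - (i : ℕ)) else 0) * m) (xx k n i) := by
    intro i
    split_ifs with h
    · have h1 := key (d - 1 - i) i (by omega)
      have e : ((d - 1 - (i : ℕ) : ℕ) : ℤ) = (d : ℤ) - 1 - (i : ℕ) := by omega
      rw [e] at h1
      exact h1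
    · rw [zero_mul]
      exact hx i
  have hprod := CON_ge_prod hv (Finset.univ.erase (⟨0, hn⟩ : Fin n)) _ (fun i => xx k n i)
    (fun i _ => hall i)
  refine CON_ge_mono ?_ hprod
  rw [← Finset.sum_mul]
  refine mul_le_mul_of_nonneg_right ?_ hm.le
  have h1 : ∑ i ∈ Finset.univ.erase (⟨0, hn⟩ : Fin n),
      (if (i : ℕ) < d then ((d : ℤ) - 1 - (i : ℕ)) else 0) =
      ∑ i : Fin n, (if (i : ℕ) < d then ((d : ℤ) - 1 - (i : ℕ)) else 0) - (d - 1) := by
    rw [← Finset.add_sum_erase Finset.univ _ (Finset.mem_univ (⟨0, hn⟩ : Fin n))]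
    rw [if_pos (show ((⟨0, hn⟩ : Fin n) : ℕ) < d by show 0 < d; omega)]
    show _ = (d : ℤ) - 1 - ((0 : ℕ) : ℤ) + _ - (d - 1)
    rw [Nat.cast_zero]
    ring
  rw [h1, Fin.sum_univ_eq_sum_range (fun i => if i < d then ((d : ℤ) - 1 - (i : ℕ)) else 0) n]
  have h2 := XV_sum n d hdn
  have h3 : (2 * p : ℤ) ≤ ((d : ℤ) - 1) * ((d : ℤ) - 2) := by
    have e1 : ((d - 1 : ℕ) : ℤ) = (d : ℤ) - 1 := by omega
    have e2 : ((d - 2 : ℕ) : ℤ) = (d : ℤ) - 2 := by omega
    have : ((2 * p : ℕ) : ℤ) ≤ (((d - 1) * (d - 2) : ℕ) : ℤ) := by exact_mod_cast hpd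
    rw [Nat.cast_mul, Nat.cast_mul, e1, e2] at this
    exact_mod_cast this
  nlinarith

end Pool.Agent.PC
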